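import Pool.Agent.Lib.MP_325d88_nt.Rough1

/-!
# Number of bad residues
-/

set_option autoImplicit false

namespace Pool.Agent.Lib.MP_757ca2_nt

open Finset Pool.Agent.Lib.MP_325d88_nt Polynomial

/-- the quadratic factor has at most two zeros modulo `p` -/
theorem quad_count (p : ℕ) (hp : p.Prime) (q a s : ℤ) (hq : ¬ (p : ℤ) ∣ q) :
    ((Finset.Ico (0 : ℤ) p).filter (fun t : ℤ =>
      (p : ℤ) ∣ (q * t + a) * (s - (q * t + a)) - 1)).card ≤ 2 := by
  have := Fact.mk hp
  classical
  set f : (ZMod p)[X] := (C (q : ZMod p) * X + C (a : ZMod p)) *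
    (C (s : ZMod p) - (C (q : ZMod p) * X + C (a : ZMod p))) - 1 with hf
  have hq0 : (q : ZMod p) ≠ 0 := by
    intro h
    exact hq ((ZMod.intCast_zmod_eq_zero_iff_dvd q p).1 h)
  have hf' : f = C (-(q : ZMod p) ^ 2) * X ^ 2 +
      C ((q : ZMod p) * s - 2 * q * a) * X + C ((a : ZMod p) * s - a ^ 2 - 1) := by
    rw [hf]
    simp only [map_sub, map_mul, map_neg, map_pow, map_one, map_ofNat]
    ring
  have hdeg : f.natDegree ≤ 2 := by
    rw [hf']; exact natDegree_quadratic_le
  have hf0 : f ≠ 0 := by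
    intro h
    have hc : ∀ A B D : ZMod p, (C A * X ^ 2 + C B * X + C D).coeff 2 = A := by
      intro A B D
      simp [coeff_X, coeff_C]
    have h2 : f.coeff 2 = -(q : ZMod p) ^ 2 := by
      rw [hf']; exact hc _ _ _
    rw [h] at h2
    simp only [coeff_zero] at h2
    have : (q : ZMod p) ^ 2 = 0 := by
      have := h2.symm
      simpa using this
    exact hq0 (by simpa using this)
  have hinj : Set.InjOn (fun t : ℤ => (t : ZMod p)) ((Finset.Ico (0 : ℤ) p).filter (fun t : ℤ =>
      (p : ℤ) ∣ (q * t + a) * (s - (q * t + a)) - 1) : Set ℤ) := by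
    intro t ht t' ht' h
    simp only [coe_filter, mem_Ico, Set.mem_ofPred_eq] at ht ht'
    have h1 : (t : ZMod p) = (t' : ZMod p) := h
    rw [ZMod.intCast_eq_intCast_iff] at h1
    have e1 := Int.emod_eq_of_lt ht.1.1 ht.1.2
    have e2 := Int.emod_eq_of_lt ht'.1.1 ht'.1.2
    unfold Int.ModEq at h1
    rw [e1, e2] at h1
    exact h1
  have hmap : ∀ t ∈ (Finset.Ico (0 : ℤ) p).filter (fun t : ℤ =>
      (p : ℤ) ∣ (q * t + a) * (s - (q * t + a)) - 1), (t : ZMod p) ∈ f.roots.toFinset := by
    intro t ht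
    rw [mem_filter] at ht
    rw [Multiset.mem_toFinset, mem_roots hf0, IsRoot.def, hf]
    have h1 := (ZMod.intCast_zmod_eq_zero_iff_dvd _ p).2 ht.2
    push_cast at h1
    simpa using h1
  have h1 := card_le_card_of_injOn (fun t : ℤ => (t : ZMod p)) hmap hinj
  have h2 := f.roots.toFinset_card_le
  have h3 := card_roots' f
  omega

/-- the product of the three numbers -/
def PP (x s a t : ℤ) : ℤ :=
  (x * (210 * t + a) - 1) * (x * (s - (210 * t + a)) - 1) *
    ((210 * t + a) * (s - (210 * t + a)) - 1)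

/-- number of bad residues modulo `p` -/
theorem bad_count (p : ℕ) (hp : p.Prime) (h11 : 11 ≤ p) (x s a : ℤ) (hx : ¬ (p : ℤ) ∣ x) :
    ∑ t ∈ Finset.Ico (0 : ℤ) p, dv p (PP x s a t) ≤ 4 := by
  have h210 : ¬ (p : ℤ) ∣ 210 := by
    intro h
    have h1 : p ∣ 210 := by exact_mod_cast h
    have h2 : (210 : ℕ) = 2 * 3 * 5 * 7 := by norm_num
    rw [h2] at h1
    rcases (Nat.Prime.dvd_mul hp).1 h1 with h1 | h1
    · rcases (Nat.Prime.dvd_mul hp).1 h1 with h1 | h1
      · rcases (Nat.Prime.dvd_mul hp).1 h1 with h1 | h1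
        · have := Nat.le_of_dvd (by norm_num) h1; omega
        · have := Nat.le_of_dvd (by norm_num) h1; omega
      · have := Nat.le_of_dvd (by norm_num) h1; omega
    · have := Nat.le_of_dvd (by norm_num) h1; omega
  have hpi : Prime (p : ℤ) := Nat.prime_iff_prime_int.1 hp
  have hx210 : ¬ (p : ℤ) ∣ 210 * x := by
    intro h
    rcases hpi.dvd_or_dvd h with h | h
    · exact h210 h
    · exact hx h
  have hx210' : ¬ (p : ℤ) ∣ -(210 * x) := by
    rwa [dvd_neg]
  have h1 := lin_count p hp (210 * x) (x * a - 1) hx210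
  have h2 := lin_count p hp (-(210 * x)) (x * (s - a) - 1) hx210'
  have h3 : ∑ t ∈ Finset.Ico (0 : ℤ) p, dv p ((210 * t + a) * (s - (210 * t + a)) - 1) ≤ 2 := by
    have := quad_count p hp 210 a s h210
    unfold dv
    rw [Finset.sum_ite, Finset.sum_const, Finset.sum_const]
    simp only [nsmul_eq_mul, mul_one, mul_zero, add_zero]
    exact_mod_cast this
  have h4 : ∀ t : ℤ, dv p (PP x s a t) ≤ dv p (x * a - 1 + 210 * x * t) +
      dv p (x * (s - a) - 1 + -(210 * x) * t) +
      dv p ((210 * t + a) * (s - (210 * t + a)) - 1) := by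
    intro t
    have e1 : x * (210 * t + a) - 1 = x * a - 1 + 210 * x * t := by ring
    have e2 : x * (s - (210 * t + a)) - 1 = x * (s - a) - 1 + -(210 * x) * t := by ring
    have n1 := dv_nonneg p (x * a - 1 + 210 * x * t)
    have n2 := dv_nonneg p (x * (s - a) - 1 + -(210 * x) * t)
    have n3 := dv_nonneg p ((210 * t + a) * (s - (210 * t + a)) - 1)
    by_cases h : (p : ℤ) ∣ PP x s a t
    · have h' := h
      unfold PP at h'
      rw [e1, e2] at h'
      rcases hpi.dvd_or_dvd h' with h' | h'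
      · rcases hpi.dvd_or_dvd h' with h' | h'
        · have : dv p (x * a - 1 + 210 * x * t) = 1 := by unfold dv; rw [if_pos h']
          have := dv_le_one p (PP x s a t)
          linarith
        · have : dv p (x * (s - a) - 1 + -(210 * x) * t) = 1 := by unfold dv; rw [if_pos h']
          have := dv_le_one p (PP x s a t)
          linarith
      · have : dv p ((210 * t + a) * (s - (210 * t + a)) - 1) = 1 := by unfold dv; rw [if_pos h']
        have := dv_le_one p (PP x s a t)
        linarith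
    · have : dv p (PP x s a t) = 0 := by unfold dv; rw [if_neg h]
      linarith
  have h5 := Finset.sum_le_sum (fun t (_ : t ∈ Finset.Ico (0 : ℤ) p) => h4 t)
  rw [Finset.sum_add_distrib, Finset.sum_add_distrib] at h5
  linarith

end Pool.Agent.Lib.MP_757ca2_nt
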