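import Mathlib

/-!
# Local conditions at 2, 3, 5, 7
-/

set_option autoImplicit false

namespace Pool.Agent.Lib.MP_757ca2_nt

/-- the residue `a` is good for the modulus `q` -/
def gd (x s a q : ℕ) : Bool :=
  (x * a % q != 1) && (x * (s + 210 - a) % q != 1) && (a * (s + 210 - a) % q != 1)

/-- good for 2, 3, 5 and 7 -/
def gd4 (x s a : ℕ) : Bool := gd x s a 2 && gd x s a 3 && gd x s a 5 && gd x s a 7

set_option maxRecDepth 100000 in
theorem loc6 : ∀ s < 210, ∃ a < 210, gd4 6 s a = true := by decide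

set_option maxRecDepth 100000 in
theorem loc2 : ∀ s < 210, s % 3 ≠ 2 → ∃ a < 210, gd4 2 s a = true := by decide

set_option maxRecDepth 100000 in
theorem loc10 : ∀ s < 210, s % 3 ≠ 1 → ∃ a < 210, gd4 10 s a = true := by decide

end Pool.Agent.Lib.MP_757ca2_nt
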