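import Pool.Agent.Lib.MP_325d88_nt.Rough1
import Pool.Agent.Lib.MP_3be4fe_nt.Sharp

/-!
# Lower bound for the product over the primes
-/

set_option autoImplicit false

namespace Pool.Agent.Lib.MP_757ca2_nt

open Finset Pool.Agent.Lib.MP_325d88_nt Pool.Agent.Lib.MP_3be4fe_nt

theorem one_sub_ge (u : ℝ) (h0 : 0 ≤ u) (h1 : u ≤ 1 / 2) : Real.exp (-(u + u ^ 2)) ≤ 1 - u := by
  have h2 := Real.quadratic_le_exp_of_nonneg (show 0 ≤ u + u ^ 2 by positivity)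
  rw [Real.exp_neg, inv_le_comm₀ (Real.exp_pos _) (by linarith)]
  refine le_trans ?_ h2
  rw [inv_le_iff_one_le_mul₀ (by linarith)]
  have h3 : 0 ≤ u ^ 2 * (1 - u - u ^ 2 - u ^ 3) := by
    apply mul_nonneg (by positivity)
    nlinarith [mul_nonneg h0 h0, pow_le_pow_left₀ h0 h1 2, pow_le_pow_left₀ h0 h1 3]
  nlinarith [h3]

theorem sum_inv_sq (S : Finset ℕ) (hS : ∀ p ∈ S, 2 ≤ p) : ∑ p ∈ S, (1 / (p : ℝ)) ^ 2 ≤ 1 := by
  obtain ⟨N, hN⟩ : ∃ N, ∀ p ∈ S, p < N := ⟨S.sup id + 1, fun p hp => by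
    have := Finset.le_sup (f := id) hp
    simp only [id] at this
    omega⟩
  have h1 : ∑ p ∈ S, (1 / (p : ℝ)) ^ 2 ≤ ∑ p ∈ (Finset.Ico 2 (N + 2)), (1 / (p : ℝ)) ^ 2 := by
    apply Finset.sum_le_sum_of_subset_of_nonneg
    · intro p hp
      rw [Finset.mem_Ico]
      have := hN p hp
      exact ⟨hS p hp, by omega⟩
    · intro p _ _
      positivity
  refine h1.trans ?_
  have h2 : ∀ M : ℕ, ∑ p ∈ (Finset.Ico 2 (M + 2)), (1 / (p : ℝ)) ^ 2 ≤ 1 - 1 / ((M : ℝ) + 1) := by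
    intro M
    induction M with
    | zero => simp
    | succ M ih =>
      rw [show M + 1 + 2 = (M + 2) + 1 by ring, Finset.sum_Ico_succ_top (by omega)]
      push_cast
      have hM : (0 : ℝ) ≤ M := Nat.cast_nonneg M
      have h3 : (1 / ((M : ℝ) + 2)) ^ 2 ≤ 1 / ((M : ℝ) + 1) - 1 / ((M : ℝ) + 1 + 1) := by
        rw [div_pow, one_pow, div_sub_div _ _ (by positivity) (by positivity),
          div_le_div_iff₀ (by positivity) (by positivity)]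
        nlinarith
      linarith
  refine (h2 N).trans ?_
  have : (0 : ℝ) ≤ 1 / ((N : ℝ) + 1) := by positivity
  linarith

/-- the product is at least a constant over `(log z)^4` -/
theorem V_lower : ∃ c : ℝ, 0 < c ∧ ∀ z : ℕ, 3 ≤ z → ∀ g : ℕ → ℝ, (∀ p, 0 ≤ g p) →
    (∀ p, g p ≤ 1 / 2) → (∀ p ∈ PR 7 z, g p ≤ 4 / p) →
    c / (Real.log z) ^ 4 ≤ ∏ p ∈ PR 7 z, (1 - g p) := by
  obtain ⟨C, hC⟩ := mertens_second
  refine ⟨Real.exp (-(4 * C + 16)), Real.exp_pos _, fun z hz g hg0 hg1 hg => ?_⟩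
  have hz3 : (3 : ℝ) ≤ z := by exact_mod_cast hz
  have hlog1 : 1 ≤ Real.log z := by
    rw [Real.le_log_iff_exp_le (by linarith)]
    have := Real.exp_one_lt_d9
    linarith
  have h1 : ∏ p ∈ PR 7 z, Real.exp (-(g p + (g p) ^ 2)) ≤ ∏ p ∈ PR 7 z, (1 - g p) :=
    Finset.prod_le_prod (fun p _ => (Real.exp_pos _).le) fun p _ => one_sub_ge _ (hg0 p) (hg1 p)
  refine le_trans ?_ h1
  rw [← Real.exp_sum]
  have h2 : ∑ p ∈ PR 7 z, (g p + (g p) ^ 2) ≤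
      4 * ∑ p ∈ PR 7 z, 1 / (p : ℝ) + 16 * ∑ p ∈ PR 7 z, (1 / (p : ℝ)) ^ 2 := by
    rw [Finset.mul_sum, Finset.mul_sum, ← Finset.sum_add_distrib]
    apply Finset.sum_le_sum
    intro p hp
    have h3 := hg p hp
    have h4 : (4 : ℝ) / p = 4 * (1 / (p : ℝ)) := by ring
    rw [h4] at h3
    have h5 := pow_le_pow_left₀ (hg0 p) h3 2
    have h6 : (4 * (1 / (p : ℝ))) ^ 2 = 16 * (1 / (p : ℝ)) ^ 2 := by ring
    linarith
  have h3 : ∑ p ∈ PR 7 z, (1 / (p : ℝ)) ^ 2 ≤ 1 := sum_inv_sq _ fun p hp => (mem_PR.1 hp).2.2.two_le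
  have h4 : ∑ p ∈ PR 7 z, 1 / (p : ℝ) ≤ ∑ p ∈ primesLE z, 1 / (p : ℝ) := by
    apply Finset.sum_le_sum_of_subset_of_nonneg
    · intro p hp
      rw [mem_PR] at hp
      rw [mem_primesLE]
      exact ⟨hp.2.1, hp.2.2⟩
    · intro p _ _
      positivity
  have h5 := (abs_le.1 (hC z hz)).2
  have h6 : ∑ p ∈ PR 7 z, (g p + (g p) ^ 2) ≤ 4 * Real.log (Real.log z) + (4 * C + 16) := by
    linarith
  have h7 : ∑ p ∈ PR 7 z, -(g p + (g p) ^ 2) = -∑ p ∈ PR 7 z, (g p + (g p) ^ 2) := by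
    rw [Finset.sum_neg_distrib]
  rw [h7]
  have h8 : Real.exp (-(4 * C + 16)) / (Real.log z) ^ 4 =
      Real.exp (-(4 * Real.log (Real.log z) + (4 * C + 16))) := by
    have e1 : (Real.log z) ^ 4 = Real.exp (4 * Real.log (Real.log z)) := by
      rw [mul_comm, Real.exp_mul, Real.exp_log (by linarith)]
      norm_cast
    rw [e1, div_eq_mul_inv, ← Real.exp_neg, ← Real.exp_add]
    congr 1
    ring
  rw [h8]
  apply Real.exp_le_exp.2
  linarith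

end Pool.Agent.Lib.MP_757ca2_nt
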