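import Pool.Agent.Lib.MP_757ca2_nt.Loc79
import Pool.Agent.Lib.MP_757ca2_nt.Cnt79
import Pool.Agent.Lib.MP_757ca2_nt.Mert79

/-!
# Many almost prime triples for every large integer
-/

set_option autoImplicit false

namespace Pool.Agent.Lib.MP_757ca2_nt

open Finset Pool.Agent.Lib.MP_325d88_nt

theorem PP_mod (p : ℕ) (x s a t t' : ℤ) (h : t ≡ t' [ZMOD (p : ℤ)]) :
    dv p (PP x s a t) = dv p (PP x s a t') := by
  have h1 : PP x s a t ≡ PP x s a t' [ZMOD (p : ℤ)] := by
    have e : 210 * t + a ≡ 210 * t' + a [ZMOD (p : ℤ)] := (h.mul_left 210).add_right a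
    have e2 : s - (210 * t + a) ≡ s - (210 * t' + a) [ZMOD (p : ℤ)] := (Int.ModEq.refl s).sub e
    unfold PP
    exact (((e.mul_left x).sub_right 1).mul ((e2.mul_left x).sub_right 1)).mul
      ((e.mul e2).sub_right 1)
  unfold dv
  have h2 : (p : ℤ) ∣ PP x s a t ↔ (p : ℤ) ∣ PP x s a t' := by
    rw [Int.dvd_iff_emod_eq_zero, Int.dvd_iff_emod_eq_zero, h1]
  simp only [h2]

theorem count_t : ∃ (K N0 : ℕ) (c : ℝ), 0 < c ∧ 1 ≤ K ∧ ∀ L : ℕ, N0 ≤ L →
    ∀ x s a : ℤ, (x = 2 ∨ x = 6 ∨ x = 10) → ∃ z : ℕ, 421 ≤ z ∧ L < (z + 1) ^ K ∧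
      c * L / (Real.log L) ^ 4 ≤ (((Finset.Ico (1 : ℤ) (1 + L)).filter
        (fun t => ∀ p ∈ PR 7 z, ¬ (p : ℤ) ∣ PP x s a t)).card : ℝ) := by
  classical
  obtain ⟨b, hb0⟩ := good_ev 4 (1 / 6) (by norm_num) (by norm_num) 0
  have hb : Good 4 b (1 / 6) := by simpa using hb0 b le_rfl
  obtain ⟨Z0, hZ⟩ := line_sieve 4 (by norm_num) (1 / 6) (by norm_num) (by norm_num) b hb
  obtain ⟨c, hc, hV⟩ := V_lower
  set K : ℕ := 8 * b + 15 with hK
  set Z : ℕ := max Z0 421 with hZdef
  refine ⟨K, Z ^ K, c / 2, by positivity, by omega, fun L hL x s a hx => ?_⟩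
  have hK0 : K ≠ 0 := by omega
  have hZL : Z ≤ L := (Nat.le_self_pow hK0 Z).trans hL
  set z : ℕ := Nat.findGreatest (fun k => k ^ K ≤ L) L with hz
  have hzK : z ^ K ≤ L := Nat.findGreatest_spec (P := fun k => k ^ K ≤ L) hZL hL
  have hZz : Z ≤ z := Nat.le_findGreatest hZL hL
  have hzL : z ≤ L := Nat.findGreatest_le L
  have hz1 : L < (z + 1) ^ K := by
    by_contra hcon
    push Not at hcon
    have h1 : z + 1 ≤ L := (Nat.le_self_pow hK0 (z + 1)).trans hcon
    have h2 := Nat.le_findGreatest (P := fun k => k ^ K ≤ L) h1 hcon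
    rw [← hz] at h2
    omega
  have hz421 : 421 ≤ z := le_trans (le_max_right _ _) hZz
  have hzZ0 : Z0 ≤ z := le_trans (le_max_left _ _) hZz
  refine ⟨z, hz421, hz1, ?_⟩
  set S : ℕ → ℝ := fun p => ∑ t ∈ Finset.Ico (0 : ℤ) p, dv p (PP x s a t) with hS
  set g : ℕ → ℝ := fun p => if p ∈ PR 7 z then S p / p else 0 with hg
  have hS0 : ∀ p, 0 ≤ S p := fun p => Finset.sum_nonneg fun t _ => dv_nonneg p _
  have hg0 : ∀ p, 0 ≤ g p := by
    intro p
    simp only [hg]
    split_ifs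
    · exact div_nonneg (hS0 p) (Nat.cast_nonneg p)
    · exact le_rfl
  have hPR : ∀ p ∈ PR 7 z, p.Prime ∧ 11 ≤ p := by
    intro p hp
    rw [mem_PR] at hp
    refine ⟨hp.2.2, ?_⟩
    by_contra hcon
    have h7 := hp.1
    have h10 : p < 11 := by omega
    have := hp.2.2
    interval_cases p <;> revert this <;> norm_num
  have hxp : ∀ p ∈ PR 7 z, ¬ (p : ℤ) ∣ x := by
    intro p hp h
    obtain ⟨_, h11⟩ := hPR p hp
    have h1 : (p : ℤ) ≤ x := Int.le_of_dvd (by rcases hx with h | h | h <;> rw [h] <;> norm_num) h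
    have h2 : (11 : ℤ) ≤ p := by exact_mod_cast h11
    rcases hx with h | h | h <;> rw [h] at h1 <;> omega
  have hS4 : ∀ p ∈ PR 7 z, S p ≤ 4 := fun p hp =>
    bad_count p (hPR p hp).1 (hPR p hp).2 x s a (hxp p hp)
  have hg1 : ∀ p, g p ≤ 1 / 2 := by
    intro p
    simp only [hg]
    split_ifs with hp
    · have h11 : (11 : ℝ) ≤ p := by exact_mod_cast (hPR p hp).2
      rw [div_le_iff₀ (by linarith)]
      have := hS4 p hp
      linarith
    · norm_num
  have hg4 : ∀ p ∈ PR 7 z, g p ≤ 4 / p := by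
    intro p hp
    simp only [hg, if_pos hp]
    exact div_le_div_of_nonneg_right (hS4 p hp) (Nat.cast_nonneg p)
  have hmain := hZ 7 z L (by norm_num) hzZ0 hzK 1 L le_rfl
    (fun p t => dv p (PP x s a t)) (fun p _ t t' h => PP_mod p x s a t t' h)
    (fun p t => dv_01 p _) g hg0 hg1 hg4 (by
      intro p hp
      simp only [hg, if_pos hp]
      have : (p : ℝ) ≠ 0 := by
        have := (hPR p hp).1.pos
        positivity
      rw [div_mul_cancel₀ _ this])
  have hVz := hV z (by omega) g hg0 hg1 hg4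
  set V : ℝ := ∏ p ∈ PR 7 z, (1 - g p) with hVd
  have hL3 : (3 : ℝ) ≤ L := by
    have : 3 ≤ L := by omega
    exact_mod_cast this
  have hz3 : (3 : ℝ) ≤ z := by
    have : 3 ≤ z := by omega
    exact_mod_cast this
  have hlz : 0 < Real.log z := Real.log_pos (by linarith)
  have hlzL : Real.log z ≤ Real.log L := Real.log_le_log (by linarith) (by exact_mod_cast hzL)
  have hVL : c / (Real.log L) ^ 4 ≤ V := by
    refine le_trans ?_ hVz
    apply div_le_div_of_nonneg_left hc.le (by positivity)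
    exact pow_le_pow_left₀ hlz.le hlzL 4
  have h1 := (abs_le.1 hmain).1
  have h2 : V * L / 2 ≤ ∑ t ∈ Finset.Ico (1 : ℤ) (1 + L), ∏ p ∈ PR 7 z, (1 - dv p (PP x s a t)) := by
    linarith
  have h3 : ∑ t ∈ Finset.Ico (1 : ℤ) (1 + L), ∏ p ∈ PR 7 z, (1 - dv p (PP x s a t)) =
      (((Finset.Ico (1 : ℤ) (1 + L)).filter
        (fun t => ∀ p ∈ PR 7 z, ¬ (p : ℤ) ∣ PP x s a t)).card : ℝ) := by
    rw [Finset.card_filter]
    push_cast
    apply Finset.sum_congr rfl
    intro t _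
    have := rgh_eq 7 z (PP x s a t)
    unfold rgh at this
    rw [this]
  rw [← h3]
  refine le_trans ?_ h2
  have h4 : c / (Real.log L) ^ 4 * L ≤ V * L := mul_le_mul_of_nonneg_right hVL (by linarith)
  have h5 : c / 2 * L / (Real.log L) ^ 4 = c / (Real.log L) ^ 4 * L / 2 := by ring
  rw [h5]
  linarith

/-- bounded number of prime factors, all of them large -/
def AlmostPrime (C n m : ℕ) : Prop :=
  1 < m ∧ m.primeFactorsList.length ≤ C ∧ ∀ p : ℕ, p.Prime → p ∣ m → n ≤ p ^ C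

theorem list_pow (n K : ℕ) (l : List ℕ) (h : ∀ p ∈ l, n ≤ p ^ K) :
    n ^ l.length ≤ l.prod ^ K := by
  induction l with
  | nil => simp
  | cons p l ih =>
    rw [List.length_cons, List.prod_cons, pow_succ, mul_pow, mul_comm]
    exact Nat.mul_le_mul (h p (by simp)) (ih fun q hq => h q (by simp [hq]))

theorem almost_of (K C n m z L : ℕ) (hm : 1 < m) (hn : 2 ≤ n) (hmn : m ≤ n ^ 2)
    (hC : 2 * (K + 1) ≤ C) (hz : 421 ≤ z) (hL : L < (z + 1) ^ K) (hnL : n ≤ 421 * L)
    (h : ∀ p : ℕ, p.Prime → p ∣ m → z < p) : AlmostPrime C n m := by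
  have h1 : ∀ p : ℕ, p.Prime → p ∣ m → n ≤ p ^ (K + 1) := by
    intro p hp hpm
    have h2 : z + 1 ≤ p := h p hp hpm
    have h3 : (z + 1) ^ K ≤ p ^ K := Nat.pow_le_pow_left h2 K
    rw [pow_succ]
    have h4 : L * 421 ≤ p ^ K * p := Nat.mul_le_mul (by omega) (by omega)
    omega
  refine ⟨hm, ?_, ?_⟩
  · have h2 : n ^ m.primeFactorsList.length ≤ m ^ (K + 1) := by
      have h3 := list_pow n (K + 1) m.primeFactorsList (fun p hp =>
        h1 p (Nat.prime_of_mem_primeFactorsList hp) (Nat.dvd_of_mem_primeFactorsList hp))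
      rwa [Nat.prod_primeFactorsList (by omega)] at h3
    have h3 : m ^ (K + 1) ≤ n ^ (2 * (K + 1)) := by
      rw [pow_mul]
      exact Nat.pow_le_pow_left hmn _
    have h4 := (Nat.pow_le_pow_iff_right (show 1 < n by omega)).1 (h2.trans h3)
    omega
  · intro p hp hpm
    exact (h1 p hp hpm).trans (Nat.pow_le_pow_right hp.pos (by omega))

theorem mod_of_dvd (q m : ℕ) (hq : 2 ≤ q) (hm : 1 ≤ m) (h : q ∣ m - 1) : m % q = 1 := by
  obtain ⟨k, hk⟩ := h
  have h1 : m = q * k + 1 := by omega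
  rw [h1, Nat.mul_add_mod]
  exact Nat.mod_eq_of_lt (by omega)

theorem gd_spec (x s a q y z : ℕ) (hq : q ∣ 210) (h : gd x (s % 210) a q = true)
    (ha : a < 210) (hy : y % 210 = a) (hyz : y + z = s) :
    (x * y) % q ≠ 1 ∧ (x * z) % q ≠ 1 ∧ (y * z) % q ≠ 1 := by
  have hya : y ≡ a [MOD q] := by
    have : y ≡ a [MOD 210] := by
      unfold Nat.ModEq
      rw [hy, Nat.mod_eq_of_lt ha]
    exact this.of_dvd hq
  have hza : z ≡ s % 210 + 210 - a [MOD q] := by
    have : z ≡ s % 210 + 210 - a [MOD 210] := by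
      unfold Nat.ModEq
      omega
    exact this.of_dvd hq
  unfold gd at h
  simp only [Bool.and_eq_true, bne_iff_ne, ne_eq] at h
  obtain ⟨⟨h1, h2⟩, h3⟩ := h
  have e1 : (x * y) % q = (x * a) % q := (Nat.ModEq.mul_left x hya)
  have e2 : (x * z) % q = (x * (s % 210 + 210 - a)) % q := (Nat.ModEq.mul_left x hza)
  have e3 : (y * z) % q = (a * (s % 210 + 210 - a)) % q := (Nat.ModEq.mul hya hza)
  rw [e1, e2, e3]
  exact ⟨h1, h2, h3⟩

theorem loc_all (x s : ℕ) (h : x = 6 ∨ (x = 2 ∧ s % 3 ≠ 2) ∨ (x = 10 ∧ s % 3 ≠ 1)) :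
    ∃ a < 210, gd4 x (s % 210) a = true := by
  have h1 : s % 210 < 210 := Nat.mod_lt _ (by norm_num)
  have h2 : s % 210 % 3 = s % 3 := by omega
  rcases h with h | ⟨h, h'⟩ | ⟨h, h'⟩
  · subst h; exact loc6 _ h1
  · subst h; exact loc2 _ h1 (by omega)
  · subst h; exact loc10 _ h1 (by omega)

open Classical in
theorem many : ∃ C : ℕ, 0 < C ∧ ∀ n x : ℕ, C ≤ n →
    (x = 6 ∨ (x = 2 ∧ n % 3 ≠ 1) ∨ (x = 10 ∧ n % 3 ≠ 2)) →
    (n : ℝ) / (C * (Real.log n) ^ 4) ≤
      (((Finset.range n ×ˢ Finset.range n).filter (fun w : ℕ × ℕ =>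
        0 < w.1 ∧ 0 < w.2 ∧ x + w.1 + w.2 = n ∧ AlmostPrime C n (x * w.1 - 1) ∧
          AlmostPrime C n (x * w.2 - 1) ∧ AlmostPrime C n (w.1 * w.2 - 1))).card : ℝ) := by
  obtain ⟨K, N0, c, hc, hK, hmain⟩ := count_t
  obtain ⟨c1, hc1⟩ := exists_nat_ge (421 / c)
  refine ⟨max (max (2 * (K + 1)) (210 * (N0 + 4) + 1000)) (max c1 1), by omega,
    fun n x hn hx => ?_⟩
  set C : ℕ := max (max (2 * (K + 1)) (210 * (N0 + 4) + 1000)) (max c1 1) with hC
  have hC1 : 2 * (K + 1) ≤ C := le_trans (le_max_left _ _) (le_max_left _ _)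
  have hC2 : 210 * (N0 + 4) + 1000 ≤ C := le_trans (le_max_right _ _) (le_max_left _ _)
  have hC3 : c1 ≤ C := le_trans (le_max_left _ _) (le_max_right _ _)
  have hC4 : 1 ≤ C := le_trans (le_max_right _ _) (le_max_right _ _)
  have hx10 : x = 2 ∨ x = 6 ∨ x = 10 := by tauto
  have hxle : x ≤ 10 := by omega
  have hx2 : 2 ≤ x := by omega
  set s : ℕ := n - x with hs
  have hns : n = s + x := by omega
  set L : ℕ := s / 210 - 2 with hL
  have hLN : N0 ≤ L := by omega
  have hL4 : 4 ≤ L := by omega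
  have hnL : n ≤ 421 * L := by omega
  have hLn : L ≤ n := by omega
  obtain ⟨a, ha, hgd⟩ := loc_all x s (by
    rcases hx with h | ⟨h, h'⟩ | ⟨h, h'⟩
    · left; exact h
    · right; left; exact ⟨h, by omega⟩
    · right; right; exact ⟨h, by omega⟩)
  obtain ⟨z, hz, hzL, hcount⟩ := hmain L hLN x s a (by
    rcases hx10 with h | h | h <;> rw [h] <;> norm_num)
  set T := (Finset.Ico (1 : ℤ) (1 + L)).filter
        (fun t => ∀ p ∈ PR 7 z, ¬ (p : ℤ) ∣ PP x s a t) with hT
  have hinj : T.card ≤ ((Finset.range n ×ˢ Finset.range n).filter (fun w : ℕ × ℕ =>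
        0 < w.1 ∧ 0 < w.2 ∧ x + w.1 + w.2 = n ∧ AlmostPrime C n (x * w.1 - 1) ∧
          AlmostPrime C n (x * w.2 - 1) ∧ AlmostPrime C n (w.1 * w.2 - 1))).card := by
    apply Finset.card_le_card_of_injOn
      (fun t : ℤ => ((210 * t + a).toNat, ((s : ℤ) - (210 * t + a)).toNat))
    · intro t ht
      rw [Finset.mem_coe, hT, Finset.mem_filter, Finset.mem_Ico] at ht
      obtain ⟨⟨ht1, ht2⟩, hp⟩ := ht
      obtain ⟨τ, rfl⟩ : ∃ τ : ℕ, t = (τ : ℤ) := ⟨t.toNat, by omega⟩
      have hτ1 : 1 ≤ τ := by omega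
      have hτ2 : τ ≤ L := by omega
      set y : ℕ := 210 * τ + a with hy
      have hys : y + 210 ≤ s := by omega
      have hy210 : 210 ≤ y := by omega
      set u : ℕ := s - y with hu
      have hyu : y + u = s := by omega
      have hu210 : 210 ≤ u := by omega
      have e1 : ((210 * (τ : ℤ) + a).toNat) = y := by omega
      have e2 : (((s : ℤ) - (210 * (τ : ℤ) + a)).toNat) = u := by omega
      simp only [e1, e2]
      rw [Finset.mem_coe, Finset.mem_filter, Finset.mem_product, Finset.mem_range, Finset.mem_range]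
      change (y < n ∧ u < n) ∧ 0 < y ∧ 0 < u ∧ x + y + u = n ∧ AlmostPrime C n (x * y - 1) ∧
        AlmostPrime C n (x * u - 1) ∧ AlmostPrime C n (y * u - 1)
      have hgood : ∀ q : ℕ, q.Prime → q ≤ z →
          ¬ q ∣ x * y - 1 ∧ ¬ q ∣ x * u - 1 ∧ ¬ q ∣ y * u - 1 := by
        intro q hq hqz
        have m1 : 1 ≤ x * y := Nat.mul_pos (by omega) (by omega)
        have m2 : 1 ≤ x * u := Nat.mul_pos (by omega) (by omega)
        have m3 : 1 ≤ y * u := Nat.mul_pos (by omega) (by omega)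
        by_cases h7 : q ≤ 7
        · have hq4 : q ∣ 210 ∧ gd x (s % 210) a q = true := by
            unfold gd4 at hgd
            simp only [Bool.and_eq_true] at hgd
            obtain ⟨⟨⟨g2, g3⟩, g5⟩, g7⟩ := hgd
            have h2 := hq.two_le
            interval_cases q
            · exact ⟨by norm_num, g2⟩
            · exact ⟨by norm_num, g3⟩
            · exact absurd hq (by norm_num)
            · exact ⟨by norm_num, g5⟩
            · exact absurd hq (by norm_num)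
            · exact ⟨by norm_num, g7⟩
          have hsp := gd_spec x s a q y u hq4.1 hq4.2 ha (by omega) hyu
          exact ⟨fun h => hsp.1 (mod_of_dvd q _ hq.two_le m1 h),
            fun h => hsp.2.1 (mod_of_dvd q _ hq.two_le m2 h),
            fun h => hsp.2.2 (mod_of_dvd q _ hq.two_le m3 h)⟩
        · have hqP : q ∈ PR 7 z := by
            rw [mem_PR]
            exact ⟨by omega, hqz, hq⟩
          have hnd := hp q hqP
          have c1' : ((x * y - 1 : ℕ) : ℤ) = (x : ℤ) * (210 * τ + a) - 1 := by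
            rw [Nat.cast_sub m1, hy]; push_cast; ring
          have c2' : ((x * u - 1 : ℕ) : ℤ) = (x : ℤ) * (s - (210 * τ + a)) - 1 := by
            have hu' : (u : ℤ) = s - (210 * τ + a) := by omega
            rw [Nat.cast_sub m2]; push_cast; rw [hu']
          have c3' : ((y * u - 1 : ℕ) : ℤ) = (210 * (τ : ℤ) + a) * (s - (210 * τ + a)) - 1 := by
            have hu' : (u : ℤ) = s - (210 * τ + a) := by omega
            rw [Nat.cast_sub m3]; push_cast; rw [hu', hy]; push_cast; ring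
          have hPP : PP x s a τ = ((x * y - 1 : ℕ) : ℤ) * ((x * u - 1 : ℕ) : ℤ) *
              ((y * u - 1 : ℕ) : ℤ) := by
            rw [c1', c2', c3']; rfl
          rw [hPP] at hnd
          refine ⟨fun h => hnd ?_, fun h => hnd ?_, fun h => hnd ?_⟩
          · exact Dvd.dvd.mul_right (Dvd.dvd.mul_right (by exact_mod_cast h) _) _
          · exact Dvd.dvd.mul_right (Dvd.dvd.mul_left (by exact_mod_cast h) _) _
          · exact Dvd.dvd.mul_left (by exact_mod_cast h) _
      have b1 : 2 * 210 ≤ x * y := Nat.mul_le_mul hx2 hy210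
      have b2 : 2 * 210 ≤ x * u := Nat.mul_le_mul hx2 hu210
      have b3 : 210 * 210 ≤ y * u := Nat.mul_le_mul hy210 hu210
      have u1 : x * y ≤ n * n := Nat.mul_le_mul (by omega) (by omega)
      have u2 : x * u ≤ n * n := Nat.mul_le_mul (by omega) (by omega)
      have u3 : y * u ≤ n * n := Nat.mul_le_mul (by omega) (by omega)
      have hsq : n ^ 2 = n * n := by ring
      refine ⟨⟨by omega, by omega⟩, by omega, by omega, by omega, ?_, ?_, ?_⟩
      · refine almost_of K C n _ z L (by omega) (by omega) (by omega) hC1 hz hzL hnL ?_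
        intro p hp' hpm
        by_contra hcon
        exact (hgood p hp' (by omega)).1 hpm
      · refine almost_of K C n _ z L (by omega) (by omega) (by omega) hC1 hz hzL hnL ?_
        intro p hp' hpm
        by_contra hcon
        exact (hgood p hp' (by omega)).2.1 hpm
      · refine almost_of K C n _ z L (by omega) (by omega) (by omega) hC1 hz hzL hnL ?_
        intro p hp' hpm
        by_contra hcon
        exact (hgood p hp' (by omega)).2.2 hpm
    · intro t ht t' ht' h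
      rw [Finset.mem_coe, hT, Finset.mem_filter, Finset.mem_Ico] at ht ht'
      simp only [Prod.mk.injEq] at h
      omega
  have hinj' : (T.card : ℝ) ≤ (((Finset.range n ×ˢ Finset.range n).filter (fun w : ℕ × ℕ =>
        0 < w.1 ∧ 0 < w.2 ∧ x + w.1 + w.2 = n ∧ AlmostPrime C n (x * w.1 - 1) ∧
          AlmostPrime C n (x * w.2 - 1) ∧ AlmostPrime C n (w.1 * w.2 - 1))).card : ℝ) := by
    exact_mod_cast hinj
  refine le_trans ?_ (hcount.trans hinj')
  have hL1 : (4 : ℝ) ≤ L := by exact_mod_cast hL4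
  have hLpos : 0 < Real.log L := Real.log_pos (by linarith)
  have hlog : Real.log L ≤ Real.log n := Real.log_le_log (by linarith) (by exact_mod_cast hLn)
  have hnL' : (n : ℝ) ≤ 421 * L := by exact_mod_cast hnL
  have hlogn : 0 < Real.log n := lt_of_lt_of_le hLpos hlog
  have hCc : 421 / c ≤ C := hc1.trans (by exact_mod_cast hC3)
  have hCpos : (0 : ℝ) < C := by
    have : 0 < C := by omega
    exact_mod_cast this
  have hlog4 : (Real.log L) ^ 4 ≤ (Real.log n) ^ 4 := pow_le_pow_left₀ hLpos.le hlog 4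
  have h421 : 421 ≤ C * c := by
    rw [div_le_iff₀ hc] at hCc
    exact hCc
  rw [div_le_div_iff₀ (by positivity) (by positivity)]
  have hlp : 0 < (Real.log L) ^ 4 := by positivity
  calc (n : ℝ) * Real.log L ^ 4 ≤ (421 * L) * Real.log L ^ 4 :=
        mul_le_mul_of_nonneg_right hnL' hlp.le
    _ ≤ (421 * L) * Real.log n ^ 4 := mul_le_mul_of_nonneg_left hlog4 (by positivity)
    _ ≤ (C * c * L) * Real.log n ^ 4 := by
        apply mul_le_mul_of_nonneg_right _ (by positivity)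
        exact mul_le_mul_of_nonneg_right h421 (by positivity)
    _ = c * L * (C * Real.log n ^ 4) := by ring

/-- the condition modulo 3 is necessary -/
theorem three_dvd (n x y z : ℕ) (h : x + y + z = n)
    (hx : (x = 2 ∧ n % 3 = 1) ∨ (x = 10 ∧ n % 3 = 2)) :
    3 ∣ (x * y - 1) * (x * z - 1) * (y * z - 1) := by
  have key : ∀ m : ℕ, m % 3 = 1 → 3 ∣ m - 1 := by
    intro m hm
    omega
  have h1 : (x * y) % 3 = 1 ∨ (x * z) % 3 = 1 ∨ (y * z) % 3 = 1 := by
    have hy3 : y % 3 = 0 ∨ y % 3 = 1 ∨ y % 3 = 2 := by omega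
    have hz3 : z % 3 = 0 ∨ z % 3 = 1 ∨ z % 3 = 2 := by omega
    rw [Nat.mul_mod x y, Nat.mul_mod x z, Nat.mul_mod y z]
    rcases hx with ⟨rfl, hn⟩ | ⟨rfl, hn⟩ <;> rcases hy3 with e | e | e <;>
      rcases hz3 with f | f | f <;> rw [e, f] <;> omega
  rcases h1 with h1 | h1 | h1
  · exact Dvd.dvd.mul_right (Dvd.dvd.mul_right (key _ h1) _) _
  · exact Dvd.dvd.mul_right (Dvd.dvd.mul_left (key _ h1) _) _
  · exact Dvd.dvd.mul_left (key _ h1) _

end Pool.Agent.Lib.MP_757ca2_nt
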